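import Pool.Agent.Work.MP_ce2d68_st.Interface

set_option autoImplicit false

/-! # MP_ce2d68: block FEK, small integer polynomials on short intervals (helper46) -/

namespace Pool.Agent.Work.MP_ce2d68_st.helper46

open Polynomial Filter Topology

/-- rounding in a basis of monic polynomials -/
theorem round_basis (b : ℕ → ℝ[X]) (hb : ∀ j, (b j).Monic ∧ (b j).natDegree = j) (y : ℕ → ℤ)
    (n : ℕ) : ∀ g : ℝ[X], g.degree < (n : WithBot ℕ) → ∃ (q : ℤ[X]) (c : ℕ → ℝ),
      q.map (Int.castRingHom ℝ) - g = ∑ j ∈ Finset.range n, C (c j) * b j ∧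
      ∀ j < n, (y j : ℝ) ≤ c j ∧ c j < y j + 1 := by
  induction n with
  | zero =>
    intro g hg
    have h0 : g = 0 := by
      rw [Polynomial.degree_lt_iff_coeff_zero] at hg
      ext i
      simpa using hg i (Nat.zero_le _)
    exact ⟨0, fun _ => 0, by simp [h0], fun j hj => absurd hj (Nat.not_lt_zero _)⟩
  | succ n ih =>
    intro g hg
    obtain ⟨k, hk⟩ : ∃ k : ℤ, k = ⌈(y n : ℝ) + g.coeff n⌉ := ⟨_, rfl⟩
    have hk1 : (y n : ℝ) + g.coeff n ≤ k := by
      rw [hk]
      exact Int.le_ceil _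
    have hk2 : (k : ℝ) < y n + g.coeff n + 1 := by
      rw [hk]
      exact Int.ceil_lt_add_one _
    obtain ⟨cn, hcn⟩ : ∃ cn : ℝ, cn = k - g.coeff n := ⟨_, rfl⟩
    obtain ⟨g', hg'⟩ : ∃ g' : ℝ[X], g' = g - C (k : ℝ) * X ^ n + C cn * b n := ⟨_, rfl⟩
    have hdeg : g'.degree < (n : WithBot ℕ) := by
      rw [Polynomial.degree_lt_iff_coeff_zero]
      intro i hi
      rw [hg', coeff_add, coeff_sub, coeff_C_mul_X_pow, coeff_C_mul]
      rcases hi.eq_or_lt with h | h
      · rw [← h, if_pos rfl]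
        have h1 : (b n).coeff n = 1 := by
          have := (hb n).1.coeff_natDegree
          rwa [(hb n).2] at this
        rw [h1, hcn]
        ring
      · rw [if_neg (by omega)]
        have h1 : g.coeff i = 0 := by
          rw [Polynomial.degree_lt_iff_coeff_zero] at hg
          exact hg i (by omega)
        have h2 : (b n).coeff i = 0 := by
          apply Polynomial.coeff_eq_zero_of_natDegree_lt
          rw [(hb n).2]
          exact h
        rw [h1, h2]
        ring
    obtain ⟨q, c, h1, h2⟩ := ih g' hdeg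
    refine ⟨q + C k * X ^ n, fun j => if j = n then cn else c j, ?_, ?_⟩
    · rw [Finset.sum_range_succ]
      dsimp only
      rw [if_pos rfl]
      have h3 : ∑ j ∈ Finset.range n, C (if j = n then cn else c j) * b j =
          ∑ j ∈ Finset.range n, C (c j) * b j := by
        apply Finset.sum_congr rfl
        intro j hj
        rw [Finset.mem_range] at hj
        rw [if_neg (by omega)]
      rw [h3, ← h1, hg']
      rw [Polynomial.map_add, Polynomial.map_mul, Polynomial.map_pow, Polynomial.map_C,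
        Polynomial.map_X]
      simp only [eq_intCast]
      ring
    · intro j hj
      dsimp only
      rcases Nat.lt_or_ge j n with h | h
      · rw [if_neg (by omega)]
        exact h2 j h
      · have : j = n := by omega
        rw [this, if_pos rfl, hcn]
        constructor <;> linarith

/-- monic polynomials are linearly independent -/
theorem indep_basis (b : ℕ → ℝ[X]) (hb : ∀ j, (b j).Monic ∧ (b j).natDegree = j) (n : ℕ)
    (c : ℕ → ℝ) (h : ∑ j ∈ Finset.range n, C (c j) * b j = 0) : ∀ j < n, c j = 0 := by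
  induction n with
  | zero =>
    intro j hj
    exact absurd hj (Nat.not_lt_zero _)
  | succ n ih =>
    have h1 : c n = 0 := by
      have h2 := congrArg (fun p : ℝ[X] => p.coeff n) h
      rw [Finset.sum_range_succ, coeff_add, finsetSum_coeff, coeff_C_mul, coeff_zero] at h2
      have h3 : ∑ j ∈ Finset.range n, (C (c j) * b j).coeff n = 0 := by
        apply Finset.sum_eq_zero
        intro j hj
        rw [Finset.mem_range] at hj
        rw [coeff_C_mul, Polynomial.coeff_eq_zero_of_natDegree_lt (by rw [(hb j).2]; exact hj),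
          mul_zero]
      have h4 : (b n).coeff n = 1 := by
        have := (hb n).1.coeff_natDegree
        rwa [(hb n).2] at this
      rw [h3, h4] at h2
      linarith
    rw [Finset.sum_range_succ, h1, C_0, zero_mul, add_zero] at h
    intro j hj
    rcases Nat.lt_or_ge j n with h2 | h2
    · exact ih h j h2
    · have : j = n := by omega
      rw [this]
      exact h1

/-- the pigeonhole principle -/
theorem pigeon (b : ℕ → ℝ[X]) (hb : ∀ j, (b j).Monic ∧ (b j).natDegree = j) (n : ℕ)
    (r : ℕ → ℝ) (hr : ∀ j, 0 < r j) (hp : 1 < ∏ j : Fin n, r j) :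
    ∃ (q : ℤ[X]) (c : ℕ → ℝ), q ≠ 0 ∧
      q.map (Int.castRingHom ℝ) = ∑ j ∈ Finset.range n, C (c j) * b j ∧
      ∀ j < n, |c j| ≤ r j := by
  -- choice of `Y`
  have h1 : Tendsto (fun Y : ℕ => ∏ j : Fin n, (1 / r j + 1 / (Y : ℝ))) atTop
      (𝓝 (∏ j : Fin n, (1 / r j + 0))) := by
    apply tendsto_finsetProd
    intro j _
    exact tendsto_const_nhds.add tendsto_one_div_atTop_nhds_zero_nat
  have h2 : ∏ j : Fin n, (1 / r j + 0) < 1 := by
    have h3 : ∏ j : Fin n, (1 / r j + 0) = 1 / ∏ j : Fin n, r j := by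
      simp only [add_zero]
      rw [Finset.prod_div_distrib, Finset.prod_const_one]
    rw [h3, div_lt_one (by linarith)]
    exact hp
  obtain ⟨Y, hY1, hY2⟩ := ((h1.eventually_lt_const h2).and (eventually_ge_atTop 1)).exists
  have hY0 : (0 : ℝ) < Y := by exact_mod_cast (by omega : 0 < Y)
  -- polynomials
  have h3 : ∀ y : Fin n → Fin Y, ∃ (q : ℤ[X]) (c : ℕ → ℝ),
      q.map (Int.castRingHom ℝ) = ∑ j ∈ Finset.range n, C (c j) * b j ∧
      ∀ j : Fin n, ((y j : ℕ) : ℝ) ≤ c j ∧ c j < ((y j : ℕ) : ℝ) + 1 := by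
    intro y
    obtain ⟨q, c, h4, h5⟩ := round_basis b hb (fun j => if h : j < n then ((y ⟨j, h⟩ : ℕ) : ℤ) else 0)
      n 0 (by
        rw [Polynomial.degree_zero]
        exact WithBot.bot_lt_coe n)
    refine ⟨q, c, by rw [← h4, sub_zero], fun j => ?_⟩
    have h6 := h5 j j.2
    rw [dif_pos j.2] at h6
    push_cast at h6
    exact h6
  choose q c hq hc using h3
  -- cells
  obtain ⟨i1, -, i2, -, hne, heq⟩ : ∃ i1 ∈ (Finset.univ : Finset (Fin n → Fin Y)),
      ∃ i2 ∈ (Finset.univ : Finset (Fin n → Fin Y)), i1 ≠ i2 ∧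
        (fun (y : Fin n → Fin Y) (j : Fin n) => ⌊c y j / r j⌋₊) i1 =
        (fun (y : Fin n → Fin Y) (j : Fin n) => ⌊c y j / r j⌋₊) i2 := by
    apply Finset.exists_ne_map_eq_of_card_lt_of_maps_to
      (t := Fintype.piFinset fun j : Fin n => Finset.range (⌊(Y : ℝ) / r j⌋₊ + 1))
    · rw [Fintype.card_piFinset, Finset.card_univ, Fintype.card_fun, Fintype.card_fin,
        Fintype.card_fin]
      have h4 : ((∏ j : Fin n, (Finset.range (⌊(Y : ℝ) / r j⌋₊ + 1)).card : ℕ) : ℝ) <
          ((Y ^ n : ℕ) : ℝ) := by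
        push_cast
        have h5 : ∏ j : Fin n, ((Finset.range (⌊(Y : ℝ) / r j⌋₊ + 1)).card : ℝ) ≤
            ∏ j : Fin n, ((Y : ℝ) * (1 / r j + 1 / (Y : ℝ))) := by
          apply Finset.prod_le_prod
          · intro j _
            exact Nat.cast_nonneg _
          · intro j _
            rw [Finset.card_range]
            push_cast
            have h6 := Nat.floor_le (a := (Y : ℝ) / r j) (div_nonneg hY0.le (hr j).le)
            have h7 : (Y : ℝ) * (1 / r j + 1 / (Y : ℝ)) = (Y : ℝ) / r j + 1 := by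
              field_simp
            rw [h7]
            linarith
        refine lt_of_le_of_lt h5 ?_
        rw [Finset.prod_mul_distrib, Finset.prod_const, Finset.card_univ, Fintype.card_fin]
        have h8 : (0 : ℝ) < (Y : ℝ) ^ n := by positivity
        nlinarith
      exact_mod_cast h4
    · intro y _
      rw [Finset.mem_coe, Fintype.mem_piFinset]
      intro j
      rw [Finset.mem_range]
      apply Nat.lt_succ_of_le
      apply Nat.floor_le_floor
      apply div_le_div_of_nonneg_right _ (hr j).le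
      have h4 := (hc y j).2
      have h5 : ((y j : ℕ) : ℝ) + 1 ≤ Y := by exact_mod_cast (y j).2
      linarith
  refine ⟨q i1 - q i2, fun j => c i1 j - c i2 j, ?_, ?_, ?_⟩
  · intro h0
    have h4 : ∑ j ∈ Finset.range n, C (c i1 j - c i2 j) * b j = 0 := by
      have h5 : ∑ j ∈ Finset.range n, C (c i1 j - c i2 j) * b j =
          (q i1 - q i2).map (Int.castRingHom ℝ) := by
        rw [Polynomial.map_sub, hq, hq, ← Finset.sum_sub_distrib]
        apply Finset.sum_congr rfl
        intro j _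
        rw [C_sub]
        ring
      rw [h5, h0, Polynomial.map_zero]
    have h6 := indep_basis b hb n _ h4
    apply hne
    funext j
    have h7 : c i1 j = c i2 j := by
      have := h6 j j.2
      linarith
    obtain ⟨h8, h9⟩ := hc i1 j
    obtain ⟨h10, h11⟩ := hc i2 j
    apply Fin.ext
    have h12 : ((i1 j : ℕ) : ℝ) < ((i2 j : ℕ) : ℝ) + 1 := by linarith
    have h13 : ((i2 j : ℕ) : ℝ) < ((i1 j : ℕ) : ℝ) + 1 := by linarith
    have h14 : (i1 j : ℕ) < (i2 j : ℕ) + 1 := by exact_mod_cast h12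
    have h15 : (i2 j : ℕ) < (i1 j : ℕ) + 1 := by exact_mod_cast h13
    omega
  · rw [Polynomial.map_sub, hq, hq, ← Finset.sum_sub_distrib]
    apply Finset.sum_congr rfl
    intro j _
    rw [C_sub]
    ring
  · intro j hj
    have h4 := congrFun heq ⟨j, hj⟩
    simp only at h4
    have h5 : 0 ≤ c i1 j / r j := div_nonneg ((Nat.cast_nonneg _).trans (hc i1 ⟨j, hj⟩).1) (hr j).le
    have h6 : 0 ≤ c i2 j / r j := div_nonneg ((Nat.cast_nonneg _).trans (hc i2 ⟨j, hj⟩).1) (hr j).le
    have h7 := Nat.floor_le h5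
    have h8 := Nat.lt_floor_add_one (c i1 j / r j)
    have h9 := Nat.floor_le h6
    have h10 := Nat.lt_floor_add_one (c i2 j / r j)
    rw [h4] at h7 h8
    have h11 : |c i1 j / r j - c i2 j / r j| ≤ 1 := by
      rw [abs_le]
      constructor <;> linarith
    rw [← sub_div, abs_div, abs_of_pos (hr j), div_le_one (hr j)] at h11
    exact h11

/-- `2 a^j T_j((x - 2a)/(2a))` -/
noncomputable def ch (a : ℝ) : ℕ → ℝ[X]
  | 0 => C 2
  | 1 => X - C (2 * a)
  | j + 2 => (X - C (2 * a)) * ch a (j + 1) - C (a ^ 2) * ch a j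

theorem ch_eval (a t : ℝ) (j : ℕ) :
    (ch a j).eval (2 * a + 2 * a * Real.cos t) = 2 * a ^ j * Real.cos (j * t) ∧
    (ch a (j + 1)).eval (2 * a + 2 * a * Real.cos t) = 2 * a ^ (j + 1) * Real.cos ((j + 1) * t) := by
  induction j with
  | zero =>
    constructor
    · simp [ch]
    · simp [ch]
  | succ j ih =>
    obtain ⟨h1, h2⟩ := ih
    refine ⟨by push_cast; exact h2, ?_⟩
    rw [ch, eval_sub, eval_mul, eval_mul, eval_sub, eval_X, eval_C, eval_C, h1, h2]
    have h3 : Real.cos (((j : ℝ) + 1 + 1) * t) =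
        2 * Real.cos t * Real.cos (((j : ℝ) + 1) * t) - Real.cos (j * t) := by
      have e1 : ((j : ℝ) + 1 + 1) * t = ((j : ℝ) + 1) * t + t := by ring
      have e2 : (j : ℝ) * t = ((j : ℝ) + 1) * t - t := by ring
      rw [e1, e2, Real.cos_add, Real.cos_sub]
      ring
    push_cast
    rw [h3]
    ring

theorem step (c : ℝ) {p q : ℝ[X]} {m : ℕ} (hp : p.Monic) (hm : p.natDegree = m)
    (hq : q.natDegree ≤ m) : ((X - C c) * p - q).Monic ∧ ((X - C c) * p - q).natDegree = m + 1 := by
  have h3 : ((X - C c) * p).Monic := (monic_X_sub_C _).mul hp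
  have h4 : ((X - C c) * p).natDegree = m + 1 := by
    rw [(monic_X_sub_C _).natDegree_mul hp, natDegree_X_sub_C, hm]
    ring
  have h5 : q.natDegree < ((X - C c) * p).natDegree := by
    rw [h4]
    omega
  constructor
  · apply h3.sub_of_left
    rw [degree_eq_natDegree h3.ne_zero]
    exact lt_of_le_of_lt degree_le_natDegree (by exact_mod_cast h5)
  · rw [natDegree_sub_eq_left_of_natDegree_lt h5, h4]

theorem ch_monic (a : ℝ) (j : ℕ) : ((ch a (j + 1)).Monic ∧ (ch a (j + 1)).natDegree = j + 1) ∧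
    (ch a (j + 2)).Monic ∧ (ch a (j + 2)).natDegree = j + 2 := by
  induction j with
  | zero =>
    have h1 : (ch a 1).Monic ∧ (ch a 1).natDegree = 1 := ⟨monic_X_sub_C _, natDegree_X_sub_C _⟩
    refine ⟨h1, step (2 * a) h1.1 h1.2 ?_⟩
    have h6 : C (a ^ 2) * ch a 0 = C (a ^ 2 * 2) := by
      rw [C_mul]
      rfl
    rw [h6, natDegree_C]
    exact Nat.zero_le _
  | succ j ih =>
    refine ⟨ih.2, step (2 * a) ih.2.1 ih.2.2 ?_⟩
    refine (natDegree_C_mul_le _ _).trans ?_
    rw [ih.1.2]
    omega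

/-- the basis -/
noncomputable def bb (a : ℝ) (j : ℕ) : ℝ[X] := if j = 0 then 1 else ch a j

theorem bb_monic (a : ℝ) (j : ℕ) : (bb a j).Monic ∧ (bb a j).natDegree = j := by
  unfold bb
  cases j with
  | zero =>
    rw [if_pos rfl]
    exact ⟨monic_one, natDegree_one⟩
  | succ j =>
    rw [if_neg (Nat.succ_ne_zero j)]
    exact (ch_monic a j).1

theorem bb_le {a : ℝ} (ha : 0 < a) (j : ℕ) {x : ℝ} (hx0 : 0 ≤ x) (hx1 : x ≤ 4 * a) :
    |(bb a j).eval x| ≤ 2 * a ^ j := by
  unfold bb
  split_ifs with h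
  · rw [h, eval_one, abs_one, pow_zero]
    norm_num
  · have h1 : -1 ≤ (x - 2 * a) / (2 * a) := by
      rw [le_div_iff₀ (by positivity)]
      linarith
    have h2 : (x - 2 * a) / (2 * a) ≤ 1 := by
      rw [div_le_iff₀ (by positivity)]
      linarith
    have h3 : x = 2 * a + 2 * a * Real.cos (Real.arccos ((x - 2 * a) / (2 * a))) := by
      rw [Real.cos_arccos h1 h2]
      field_simp
      ring
    rw [h3, (ch_eval a _ j).1, abs_mul, abs_of_pos (by positivity)]
    have h4 := Real.abs_cos_le_one (j * Real.arccos ((x - 2 * a) / (2 * a)))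
    have h5 : (0 : ℝ) < 2 * a ^ j := by positivity
    nlinarith

/-- FEK -/
theorem stmt_FEK : Stmt_FEK := by
  intro L hL0 hL4
  obtain ⟨a, ha⟩ : ∃ a : ℝ, a = L / 4 := ⟨_, rfl⟩
  have ha0 : 0 < a := by
    rw [ha]
    linarith
  have ha1 : a < 1 := by
    rw [ha]
    linarith
  have h1 : Tendsto (fun m : ℕ => (m : ℝ) * a ^ m) atTop (𝓝 0) :=
    tendsto_self_mul_const_pow_of_lt_one ha0.le ha1
  have h2 : Tendsto (fun m : ℕ => a ^ m) atTop (𝓝 0) :=
    tendsto_pow_atTop_nhds_zero_of_lt_one ha0.le ha1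
  obtain ⟨m, hm1, hm2⟩ := ((h1.eventually_le_const (by norm_num : (0 : ℝ) < 1 / 32)).and
    (h2.eventually_le_const (by norm_num : (0 : ℝ) < 1 / 16))).exists
  obtain ⟨r, hr⟩ : ∃ r : ℕ → ℝ, r = fun j => 2 * (a ^ m / a ^ j) := ⟨_, rfl⟩
  have hr0 : ∀ j, 0 < r j := by
    intro j
    rw [hr]
    positivity
  have hp : 1 < ∏ j : Fin (2 * m + 1), r j := by
    have h3 : ∏ j : Fin (2 * m + 1), r j = 2 ^ (2 * m + 1) := by
      rw [Fin.prod_univ_eq_prod_range r (2 * m + 1), hr]
      rw [Finset.prod_mul_distrib, Finset.prod_const, Finset.card_range, Finset.prod_div_distrib,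
        Finset.prod_const, Finset.card_range, Finset.prod_pow_eq_pow_sum, ← pow_mul]
      have h4 : ∑ j ∈ Finset.range (2 * m + 1), j = m * (2 * m + 1) := by
        have h5 := Finset.sum_range_id_mul_two (2 * m + 1)
        have h6 : (2 * m + 1) * (2 * m + 1 - 1) = m * (2 * m + 1) * 2 := by
          rw [Nat.add_sub_cancel]
          ring
        rw [h6] at h5
        exact Nat.eq_of_mul_eq_mul_right (by norm_num) h5
      rw [h4, div_self (by positivity), mul_one]
    rw [h3]
    exact one_lt_pow₀ (by norm_num) (by omega)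
  obtain ⟨q, c, hq0, hq, hc⟩ := pigeon (bb a) (bb_monic a) (2 * m + 1) r hr0 hp
  refine ⟨q, hq0, fun x hx0 hx1 => ?_⟩
  rw [hq, eval_finsetSum]
  refine (Finset.abs_sum_le_sum_abs _ _).trans ?_
  have h3 : ∀ j ∈ Finset.range (2 * m + 1), |(C (c j) * bb a j).eval x| ≤ 4 * a ^ m := by
    intro j hj
    rw [Finset.mem_range] at hj
    rw [eval_mul, eval_C, abs_mul]
    have h4 := hc j hj
    have h5 := bb_le ha0 j hx0 (by rw [ha]; linarith : x ≤ 4 * a)
    calc |c j| * |(bb a j).eval x| ≤ r j * (2 * a ^ j) :=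
          mul_le_mul h4 h5 (abs_nonneg _) (hr0 j).le
      _ = 4 * a ^ m := by
        rw [hr]
        field_simp
        norm_num
  refine (Finset.sum_le_sum h3).trans ?_
  rw [Finset.sum_const, Finset.card_range, nsmul_eq_mul]
  push_cast
  nlinarith

end Pool.Agent.Work.MP_ce2d68_st.helper46
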