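import Pool.Agent.Work.MP_ce2d68_st.Interface

set_option autoImplicit false

/-! # MP_ce2d68: block MINK (helper46) -/

namespace Pool.Agent.Work.MP_ce2d68_st.helper46

open Polynomial Filter Topology
open scoped ComplexConjugate

theorem mem_rts {P : ℤ[X]} (hP : P.Monic) {a : ℂ} : a ∈ rts P ↔ ev P a = 0 := by
  have h : cp P ≠ 0 := (hP.map _).ne_zero
  unfold rts ev
  rw [Multiset.mem_toFinset, mem_roots h]
  rfl

/-- a nonzero integer polynomial of small degree does not vanish at the roots -/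
theorem ev_ne {P w : ℤ[X]} (hP : P.Monic) (hI : Irreducible P) (hw : w ≠ 0)
    (hd : w.natDegree < P.natDegree) {a : ℂ} (ha : a ∈ rts P) : ev w a ≠ 0 := by
  intro h0
  have h1 : Irreducible (P.map (algebraMap ℤ ℚ)) :=
    (hP.irreducible_iff_irreducible_map_fraction_map).1 hI
  have h2 : ∀ q : ℤ[X], (aeval a) (q.map (algebraMap ℤ ℚ)) = ev q a := by
    intro q
    unfold ev cp
    rw [aeval_def, eval₂_map, eval_map]
    congr 1
  rcases (EuclideanDomain.dvd_or_coprime (P.map (algebraMap ℤ ℚ)) (w.map (algebraMap ℤ ℚ)) h1) with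
    h | h
  · have h3 : w.map (algebraMap ℤ ℚ) ≠ 0 := by
      rw [Ne, Polynomial.map_eq_zero_iff (algebraMap ℤ ℚ).injective_int]
      exact hw
    have h4 := natDegree_le_of_dvd h h3
    rw [hP.natDegree_map, natDegree_map_eq_of_injective (algebraMap ℤ ℚ).injective_int] at h4
    omega
  · obtain ⟨u, v, huv⟩ := h
    have h3 := congrArg (aeval a) huv
    rw [map_add, map_mul, map_mul, h2, h2, h0, (mem_rts hP).1 ha, mul_zero, mul_zero, map_one] at h3
    norm_num at h3

/-- the polynomial with given coefficients -/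
noncomputable def wx (d : ℕ) (x : ℕ → ℤ) : ℤ[X] := ∑ k ∈ Finset.range d, C (x k) * X ^ k

theorem wx_ev (d : ℕ) (x : ℕ → ℤ) (a : ℂ) :
    ev (wx d x) a = ∑ k ∈ Finset.range d, (x k : ℂ) * a ^ k := by
  unfold ev cp wx
  rw [Polynomial.map_sum, eval_finsetSum]
  apply Finset.sum_congr rfl
  intro k _
  rw [Polynomial.map_mul, Polynomial.map_pow, Polynomial.map_C, Polynomial.map_X, eval_mul,
    eval_pow, eval_C, eval_X]
  rfl

theorem wx_coeff (d : ℕ) (x : ℕ → ℤ) {k : ℕ} (hk : k < d) : (wx d x).coeff k = x k := by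
  unfold wx
  rw [finsetSum_coeff]
  simp only [coeff_C_mul_X_pow]
  rw [Finset.sum_ite_eq]
  simp [hk]

theorem wx_deg {d : ℕ} (hd : 0 < d) (x : ℕ → ℤ) : (wx d x).natDegree < d := by
  have h1 : (wx d x).natDegree ≤ d - 1 := by
    unfold wx
    apply natDegree_sum_le_of_forall_le
    intro k hk
    rw [Finset.mem_range] at hk
    exact (natDegree_C_mul_X_pow_le _ _).trans (by omega)
  omega

/-- the real coordinates of the values at the roots -/
noncomputable def uu (a : ℂ) (v : ℂ → ℂ) : ℝ := if 0 ≤ a.im then (v a).re else (v a).im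

/-- MINK -/
theorem stmt_MINK (hB : Stmt_BAS) : Stmt_MINK := by
  intro P hP hI
  obtain ⟨hd, -, hcard, hconj, -⟩ := hB P hP hI
  obtain ⟨d, hdd⟩ : ∃ d, d = P.natDegree := ⟨_, rfl⟩
  rw [← hdd] at hd hcard
  obtain ⟨B, hB0⟩ : ∃ B : ℝ, B = 1 + ∑ a ∈ rts P, ∑ k ∈ Finset.range d, ‖a‖ ^ k := ⟨_, rfl⟩
  have hnn : ∀ a ∈ rts P, 0 ≤ ∑ k ∈ Finset.range d, ‖a‖ ^ k := fun a _ =>
    Finset.sum_nonneg (fun k _ => by positivity)
  have hB1 : 1 ≤ B := by
    rw [hB0]
    have := Finset.sum_nonneg hnn
    linarith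
  have hBa : ∀ a ∈ rts P, ∑ k ∈ Finset.range d, ‖a‖ ^ k ≤ B := by
    intro a ha
    rw [hB0]
    have := Finset.single_le_sum hnn ha
    linarith
  refine ⟨2 * (3 * B), by linarith, fun t ht hsum => ?_⟩
  -- choice of `H`
  obtain ⟨H, hH1, hH2⟩ : ∃ H : ℕ, 1 ≤ H ∧ ∀ a ∈ rts P, 9 * Real.exp (t a) ≤ H := by
    obtain ⟨H, hH⟩ := exists_nat_ge (1 + ∑ a ∈ rts P, 9 * Real.exp (t a))
    have h1 : ∀ a ∈ rts P, 0 ≤ 9 * Real.exp (t a) := fun a _ => by positivity
    have h2 := Finset.sum_nonneg h1
    refine ⟨H, ?_, fun a ha => ?_⟩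
    · have h3 : (1 : ℝ) ≤ H := by linarith
      exact_mod_cast h3
    · have := Finset.single_le_sum h1 ha
      linarith
  have hH0 : (0 : ℝ) < H := by exact_mod_cast hH1
  obtain ⟨l, hl⟩ : ∃ l : ℂ → ℝ, l = fun a => 3 * B * Real.exp (t a) := ⟨_, rfl⟩
  have hl0 : ∀ a, 0 < l a := by
    intro a
    rw [hl]
    positivity
  -- values
  obtain ⟨val, hval⟩ : ∃ val : (Fin d → Fin (H + 1)) → ℂ → ℂ,
      val = fun x a => ev (wx d (fun k => if h : k < d then ((x ⟨k, h⟩ : ℕ) : ℤ) else 0)) a :=
    ⟨_, rfl⟩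
  have hvb : ∀ x, ∀ a ∈ rts P, ‖val x a‖ ≤ H * B := by
    intro x a ha
    rw [hval]
    dsimp only
    rw [wx_ev]
    refine (norm_sum_le _ _).trans ?_
    refine le_trans ?_ (mul_le_mul_of_nonneg_left (hBa a ha) hH0.le)
    rw [Finset.mul_sum]
    apply Finset.sum_le_sum
    intro k hk
    rw [Finset.mem_range] at hk
    rw [dif_pos hk, norm_mul, norm_pow]
    apply mul_le_mul_of_nonneg_right _ (by positivity)
    have h1 : (x ⟨k, hk⟩ : ℕ) ≤ H := Nat.lt_succ_iff.1 (x ⟨k, hk⟩).2
    rw [Complex.norm_intCast]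
    push_cast
    rw [abs_of_nonneg (Nat.cast_nonneg _)]
    exact_mod_cast h1
  have hub : ∀ x, ∀ a ∈ rts P, |uu a (val x)| ≤ H * B := by
    intro x a ha
    unfold uu
    split_ifs
    · exact (Complex.abs_re_le_norm _).trans (hvb x a ha)
    · exact (Complex.abs_im_le_norm _).trans (hvb x a ha)
  -- pigeonhole
  obtain ⟨i1, -, i2, -, hne, heq⟩ : ∃ i1 ∈ (Finset.univ : Finset (Fin d → Fin (H + 1))),
      ∃ i2 ∈ (Finset.univ : Finset (Fin d → Fin (H + 1))), i1 ≠ i2 ∧
        (fun (x : Fin d → Fin (H + 1)) (a : {a // a ∈ rts P}) => ⌊uu a.1 (val x) / l a.1⌋) i1 =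
        (fun (x : Fin d → Fin (H + 1)) (a : {a // a ∈ rts P}) => ⌊uu a.1 (val x) / l a.1⌋) i2 := by
    apply Finset.exists_ne_map_eq_of_card_lt_of_maps_to
      (t := Fintype.piFinset fun a : {a // a ∈ rts P} =>
        Finset.Icc (-(⌈(H * B : ℝ) / l a.1⌉₊ : ℤ)) (⌈(H * B : ℝ) / l a.1⌉₊ : ℤ))
    · rw [Fintype.card_piFinset, Finset.card_univ, Fintype.card_fun, Fintype.card_fin,
        Fintype.card_fin]
      have h4 : ((∏ a : {a // a ∈ rts P}, (Finset.Icc (-(⌈(H * B : ℝ) / l a.1⌉₊ : ℤ))
          (⌈(H * B : ℝ) / l a.1⌉₊ : ℤ)).card : ℕ) : ℝ) ≤ (H : ℝ) ^ d := by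
        push_cast
        have h5 : ∏ a : {a // a ∈ rts P}, ((Finset.Icc (-(⌈(H * B : ℝ) / l a.1⌉₊ : ℤ))
            (⌈(H * B : ℝ) / l a.1⌉₊ : ℤ)).card : ℝ) ≤
            ∏ a : {a // a ∈ rts P}, ((H : ℝ) * Real.exp (-t a.1)) := by
          apply Finset.prod_le_prod
          · intro a _
            exact Nat.cast_nonneg _
          · intro a _
            have h6 : (Finset.Icc (-(⌈(H * B : ℝ) / l a.1⌉₊ : ℤ))
                (⌈(H * B : ℝ) / l a.1⌉₊ : ℤ)).card = 2 * ⌈(H * B : ℝ) / l a.1⌉₊ + 1 := by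
              rw [Int.card_Icc]
              omega
            rw [h6]
            have h7 := Nat.ceil_lt_add_one (a := (H * B : ℝ) / l a.1)
              (div_nonneg (by positivity) (hl0 _).le)
            have h8 : (H * B : ℝ) / l a.1 = H * Real.exp (-t a.1) / 3 := by
              rw [hl, Real.exp_neg]
              have := Real.exp_pos (t a.1)
              field_simp
            have h9 : 9 ≤ H * Real.exp (-t a.1) := by
              have h10 := hH2 a.1 a.2
              rw [Real.exp_neg, ← div_eq_mul_inv, le_div_iff₀ (Real.exp_pos _)]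
              exact h10
            push_cast
            rw [h8] at h7 ⊢
            linarith
        refine h5.trans (le_of_eq ?_)
        rw [Finset.prod_mul_distrib, Finset.prod_const, Finset.card_univ, Fintype.card_coe, hcard,
          ← Real.exp_sum]
        have h6 : ∑ a : {a // a ∈ rts P}, -t a.1 = 0 := by
          rw [Finset.sum_neg_distrib, Finset.sum_coe_sort (rts P) t, hsum, neg_zero]
        rw [h6, Real.exp_zero, mul_one]
      have h5 : (H : ℝ) ^ d < (((H + 1) ^ d : ℕ) : ℝ) := by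
        push_cast
        exact pow_lt_pow_left₀ (by linarith) hH0.le (by omega)
      exact_mod_cast lt_of_le_of_lt h4 h5
    · intro x _
      rw [Finset.mem_coe, Fintype.mem_piFinset]
      intro a
      rw [Finset.mem_Icc]
      have h4 := hub x a.1 a.2
      have h5 : |uu a.1 (val x) / l a.1| ≤ (H * B : ℝ) / l a.1 := by
        rw [abs_div, abs_of_pos (hl0 _)]
        exact div_le_div_of_nonneg_right h4 (hl0 _).le
      have h6 := Nat.le_ceil ((H * B : ℝ) / l a.1)
      obtain ⟨h7, h8⟩ := abs_le.1 h5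
      constructor
      · rw [Int.le_floor]
        push_cast
        linarith
      · have h9 : (⌊uu a.1 (val x) / l a.1⌋ : ℝ) ≤ (⌈(H * B : ℝ) / l a.1⌉₊ : ℝ) :=
          (Int.floor_le _).trans (by linarith)
        exact_mod_cast h9
  obtain ⟨w, hw⟩ : ∃ w : ℤ[X], w = wx d (fun k => if h : k < d then
      ((i1 ⟨k, h⟩ : ℕ) : ℤ) - ((i2 ⟨k, h⟩ : ℕ) : ℤ) else 0) := ⟨_, rfl⟩
  have hwv : ∀ a, ev w a = val i1 a - val i2 a := by
    intro a
    rw [hval, hw]
    dsimp only
    rw [wx_ev, wx_ev, wx_ev, ← Finset.sum_sub_distrib]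
    apply Finset.sum_congr rfl
    intro k hk
    rw [Finset.mem_range] at hk
    rw [dif_pos hk, dif_pos hk, dif_pos hk]
    push_cast
    ring
  have hw0 : w ≠ 0 := by
    intro h0
    apply hne
    funext k
    have h1 := wx_coeff d (fun k => if h : k < d then
      ((i1 ⟨k, h⟩ : ℕ) : ℤ) - ((i2 ⟨k, h⟩ : ℕ) : ℤ) else 0) k.2
    rw [← hw, h0, coeff_zero, dif_pos k.2] at h1
    apply Fin.ext
    have h2 : ((i1 k : ℕ) : ℤ) = ((i2 k : ℕ) : ℤ) := by
      have : ((i1 ⟨k, k.2⟩ : ℕ) : ℤ) - ((i2 ⟨k, k.2⟩ : ℕ) : ℤ) = 0 := h1.symm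
      simpa [sub_eq_zero] using this
    exact_mod_cast h2
  refine ⟨w, fun a ha => ⟨?_, ?_⟩⟩
  · apply ev_ne hP hI hw0 _ ha
    rw [hw, ← hdd]
    exact wx_deg hd _
  · -- size
    have hu : ∀ b ∈ rts P, |uu b (val i1) - uu b (val i2)| ≤ l b := by
      intro b hb
      have h4 := congrFun heq ⟨b, hb⟩
      dsimp only at h4
      have h7 := Int.floor_le (uu b (val i1) / l b)
      have h8 := Int.lt_floor_add_one (uu b (val i1) / l b)
      have h9 := Int.floor_le (uu b (val i2) / l b)
      have h10 := Int.lt_floor_add_one (uu b (val i2) / l b)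
      rw [h4] at h7 h8
      have h11 : |uu b (val i1) / l b - uu b (val i2) / l b| ≤ 1 := by
        rw [abs_le]
        constructor <;> linarith
      rw [← sub_div, abs_div, abs_of_pos (hl0 b), div_le_one (hl0 b)] at h11
      exact h11
    have hcv : ∀ x b, val x (conj b) = conj (val x b) := by
      intro x b
      rw [hval]
      dsimp only
      rw [wx_ev, wx_ev, map_sum]
      apply Finset.sum_congr rfl
      intro k _
      rw [map_mul, map_pow]
      congr 1
      exact (map_intCast (starRingEnd ℂ) _).symm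
    have hre : |(ev w a).re| ≤ l a := by
      rcases le_or_gt 0 a.im with h | h
      · have h1 := hu a ha
        unfold uu at h1
        rw [if_pos h, if_pos h] at h1
        rw [hwv, Complex.sub_re]
        exact h1
      · have h1 := hu (conj a) (hconj a ha)
        unfold uu at h1
        have h2 : 0 ≤ (conj a).im := by
          rw [Complex.conj_im]
          linarith
        rw [if_pos h2, if_pos h2, hcv, hcv, Complex.conj_re, Complex.conj_re] at h1
        rw [hwv, Complex.sub_re]
        have h3 : l (conj a) = l a := by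
          rw [hl]
          dsimp only
          rw [ht]
        rw [h3] at h1
        exact h1
    have him : |(ev w a).im| ≤ l a := by
      rcases lt_trichotomy a.im 0 with h | h | h
      · have h1 := hu a ha
        unfold uu at h1
        rw [if_neg (not_le.2 h), if_neg (not_le.2 h)] at h1
        rw [hwv, Complex.sub_im]
        exact h1
      · have h1 : conj a = a := Complex.conj_eq_iff_im.2 h
        have h2 : ∀ x, (val x a).im = 0 := by
          intro x
          have h3 := hcv x a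
          rw [h1] at h3
          exact Complex.conj_eq_iff_im.1 h3.symm
        rw [hwv, Complex.sub_im, h2, h2, sub_zero, abs_zero]
        exact (hl0 a).le
      · have h1 := hu (conj a) (hconj a ha)
        unfold uu at h1
        have h2 : ¬ 0 ≤ (conj a).im := by
          rw [Complex.conj_im]
          linarith
        rw [if_neg h2, if_neg h2, hcv, hcv, Complex.conj_im, Complex.conj_im] at h1
        rw [hwv, Complex.sub_im]
        have h3 : l (conj a) = l a := by
          rw [hl]
          dsimp only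
          rw [ht]
        rw [h3] at h1
        have h4 : |(val i1 a).im - (val i2 a).im| = |-(val i1 a).im - -(val i2 a).im| := by
          rw [← abs_neg]
          congr 1
          ring
        rw [h4]
        exact h1
    refine (Complex.norm_le_abs_re_add_abs_im _).trans ?_
    have h5 : 2 * (3 * B) * Real.exp (t a) = l a + l a := by
      rw [hl]
      ring
    rw [h5]
    exact add_le_add hre him

end Pool.Agent.Work.MP_ce2d68_st.helper46
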